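import Pool.Agent.T9h20.TG.Spec2

/-!
# Robust roots without a window: (PR) difference of products
-/

set_option autoImplicit false

namespace Pool.Agent.T9h64.TG

open Pool.Agent.T9h20.TG

theorem pow_diff (x w A δ : ℝ) (hA : 0 ≤ A) (hδ : 0 ≤ δ) (hx : |x| ≤ A) (hw : |w| ≤ A)
    (hd : |x - w| ≤ δ * A) (n : ℕ) : |x ^ n - w ^ n| ≤ n * δ * A ^ n := by
  induction n with
  | zero => simp
  | succ n ih =>
    have e : x ^ (n + 1) - w ^ (n + 1) = x ^ n * (x - w) + (x ^ n - w ^ n) * w := by ring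
    rw [e]
    have h1 : |x ^ n * (x - w)| ≤ A ^ n * (δ * A) := by
      rw [abs_mul, abs_pow]
      exact mul_le_mul (pow_le_pow_left₀ (abs_nonneg x) hx n) hd (abs_nonneg _) (by positivity)
    have h2 : |(x ^ n - w ^ n) * w| ≤ (n * δ * A ^ n) * A := by
      rw [abs_mul]
      exact mul_le_mul ih hw (abs_nonneg _) (by positivity)
    have h3 := abs_add_le (x ^ n * (x - w)) ((x ^ n - w ^ n) * w)
    push_cast
    calc _ ≤ _ := h3
      _ ≤ A ^ n * (δ * A) + (n * δ * A ^ n) * A := add_le_add h1 h2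
      _ = ((n : ℝ) + 1) * δ * A ^ (n + 1) := by ring

theorem prod_le {q : ℕ} (al : Fin q → ℕ) (w A : Fin q → ℝ) (hw : ∀ j, |w j| ≤ A j)
    (s : Finset (Fin q)) : |∏ j ∈ s, w j ^ al j| ≤ ∏ j ∈ s, A j ^ al j := by
  rw [Finset.abs_prod]
  refine Finset.prod_le_prod (fun j _ => abs_nonneg _) fun j _ => ?_
  rw [abs_pow]
  exact pow_le_pow_left₀ (abs_nonneg _) (hw j) _

theorem prod_diff {q : ℕ} (al : Fin q → ℕ) (x w A : Fin q → ℝ) (δ : ℝ) (hA : ∀ j, 0 ≤ A j)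
    (hδ : 0 ≤ δ) (hx : ∀ j, |x j| ≤ A j) (hw : ∀ j, |w j| ≤ A j)
    (hd : ∀ j, |x j - w j| ≤ δ * A j) (s : Finset (Fin q)) :
    |∏ j ∈ s, x j ^ al j - ∏ j ∈ s, w j ^ al j| ≤
      ((∑ j ∈ s, al j : ℕ) : ℝ) * δ * ∏ j ∈ s, A j ^ al j := by
  classical
  induction s using Finset.induction_on with
  | empty => simp
  | insert j s hj ih =>
    rw [Finset.prod_insert hj, Finset.prod_insert hj, Finset.prod_insert hj,
      Finset.sum_insert hj]
    have e : x j ^ al j * ∏ i ∈ s, x i ^ al i - w j ^ al j * ∏ i ∈ s, w i ^ al i =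
        x j ^ al j * (∏ i ∈ s, x i ^ al i - ∏ i ∈ s, w i ^ al i) +
          (x j ^ al j - w j ^ al j) * ∏ i ∈ s, w i ^ al i := by ring
    rw [e]
    have hP : 0 ≤ ∏ i ∈ s, A i ^ al i := Finset.prod_nonneg fun i _ => pow_nonneg (hA i) _
    have h1 : |x j ^ al j * (∏ i ∈ s, x i ^ al i - ∏ i ∈ s, w i ^ al i)| ≤
        A j ^ al j * (((∑ i ∈ s, al i : ℕ) : ℝ) * δ * ∏ i ∈ s, A i ^ al i) := by
      rw [abs_mul, abs_pow]
      exact mul_le_mul (pow_le_pow_left₀ (abs_nonneg _) (hx j) _) ih (abs_nonneg _)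
        (pow_nonneg (hA j) _)
    have h2 : |(x j ^ al j - w j ^ al j) * ∏ i ∈ s, w i ^ al i| ≤
        ((al j : ℝ) * δ * A j ^ al j) * ∏ i ∈ s, A i ^ al i := by
      rw [abs_mul]
      refine mul_le_mul (pow_diff _ _ _ _ (hA j) hδ (hx j) (hw j) (hd j) _)
        (prod_le al w A hw s) (abs_nonneg _) ?_
      have := pow_nonneg (hA j) (al j)
      positivity
    have h3 := abs_add_le (x j ^ al j * (∏ i ∈ s, x i ^ al i - ∏ i ∈ s, w i ^ al i))
      ((x j ^ al j - w j ^ al j) * ∏ i ∈ s, w i ^ al i)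
    push_cast at h1 h2 ⊢
    calc _ ≤ _ := h3
      _ ≤ _ := add_le_add h1 h2
      _ = ((al j : ℝ) + ∑ i ∈ s, (al i : ℝ)) * δ * (A j ^ al j * ∏ i ∈ s, A i ^ al i) := by ring

/-- (PR) -/
theorem sProd : SProd := by
  intro q m al x w M T δ hT hδ hm h
  have hA : ∀ j, 0 ≤ T * M j := fun j => mul_nonneg (by linarith) (h j).1
  have h1 := prod_diff al x w (fun j => T * M j) δ hA hδ (fun j => (h j).2.1)
    (fun j => (h j).2.2.1) (fun j => (h j).2.2.2) Finset.univ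
  refine h1.trans ?_
  have hP : 0 ≤ ∏ j, M j ^ al j := Finset.prod_nonneg fun i _ => pow_nonneg (h i).1 _
  have h2 : ∏ j, (T * M j) ^ al j = T ^ (∑ j, al j) * ∏ j, M j ^ al j := by
    rw [← Finset.prod_pow_eq_pow_sum, ← Finset.prod_mul_distrib]
    exact Finset.prod_congr rfl fun j _ => mul_pow _ _ _
  rw [h2]
  have h3 : T ^ (∑ j, al j) ≤ T ^ m := pow_le_pow_right₀ hT hm
  have h4 : ((∑ j, al j : ℕ) : ℝ) ≤ m := by exact_mod_cast hm
  have h5 : 0 ≤ T ^ (∑ j, al j) := pow_nonneg (by linarith) _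
  calc ((∑ j, al j : ℕ) : ℝ) * δ * (T ^ (∑ j, al j) * ∏ j, M j ^ al j)
      = (((∑ j, al j : ℕ) : ℝ) * δ) * T ^ (∑ j, al j) * ∏ j, M j ^ al j := by ring
    _ ≤ (m * δ) * T ^ m * ∏ j, M j ^ al j := by
        refine mul_le_mul_of_nonneg_right ?_ hP
        exact mul_le_mul (mul_le_mul_of_nonneg_right h4 hδ) h3 h5 (by positivity)

end Pool.Agent.T9h64.TG
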